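import Mathlib
import Pool.Agent.Q157.Ortho3

/-!
For quadratic APN functions on `𝔽₂ⁿ`, `n ≥ 3`, the ortho-derivative has nonlinearity zero if
and only if `n = 3`.
-/

namespace Pool.Agent.Results.MP_4cfb12_co.OnlyDimensionThree

open Matrix Q157.Walsh

theorem NL_eq_zero_iff {n : ℕ} (hn : 1 ≤ n) (G : V n → V n) :
    NL G = 0 ↔ ∃ (b u : V n) (c : ZMod 2), b ≠ 0 ∧ ∀ x, b ⬝ᵥ G x = u ⬝ᵥ x + c := by
  unfold NL
  rw [Nat.sInf_eq_zero]
  constructor
  · rintro (⟨b, u, c, hb, h⟩ | h)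
    · refine ⟨b, u, c, hb, fun x => ?_⟩
      have h1 := Finset.card_eq_zero.1 h.symm
      rw [Finset.filter_eq_empty_iff] at h1
      exact not_not.1 (h1 (Finset.mem_univ x))
    · exfalso
      have h2 : (Finset.univ.filter fun x => (Pi.single ⟨0, by omega⟩ 1 : V n) ⬝ᵥ G x ≠
          (0 : V n) ⬝ᵥ x + 0).card ∈ {k | ∃ (b u : V n) (c : ZMod 2), b ≠ 0 ∧
          k = (Finset.univ.filter fun x => b ⬝ᵥ G x ≠ u ⬝ᵥ x + c).card} := by
        refine ⟨Pi.single ⟨0, by omega⟩ 1, 0, 0, ?_, rfl⟩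
        intro h0
        have := congrFun h0 ⟨0, by omega⟩
        simp at this
      rw [h] at h2
      exact h2
  · rintro ⟨b, u, c, hb, h⟩
    left
    refine ⟨b, u, c, hb, ?_⟩
    symm
    rw [Finset.card_eq_zero, Finset.filter_eq_empty_iff]
    intro x _
    exact not_not.2 (h x)

/-- The Gold function `x ↦ x³` of `𝔽₈` in coordinates. -/
def gold : V 3 → V 3 := fun x =>
  ![x 0 + x 1 + x 2 + x 1 * x 2, x 1 + x 0 * x 1 + x 0 * x 2, x 2 + x 0 * x 1]

theorem gold_quadratic : IsQuadratic gold := by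
  constructor
  · intro i
    fin_cases i
    · refine ⟨0, ![1, 1, 1], !![0, 0, 0; 0, 0, 1; 0, 0, 0], ?_⟩
      decide
    · refine ⟨0, ![0, 1, 0], !![0, 1, 1; 0, 0, 0; 0, 0, 0], ?_⟩
      decide
    · refine ⟨0, ![0, 0, 1], !![0, 1, 0; 0, 0, 0; 0, 0, 0], ?_⟩
      decide
  · intro h
    obtain ⟨c, l, hcl⟩ := h 2
    have h0 := hcl ![0, 0, 0]
    have h1 := hcl ![1, 0, 0]
    have h2 := hcl ![0, 1, 0]
    have h3 := hcl ![1, 1, 0]
    simp [gold, dotProduct, Fin.sum_univ_three] at h0 h1 h2 h3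
    subst h0
    rw [zero_add] at h1 h2 h3
    rw [← h1, ← h2] at h3
    exact absurd h3 (by decide)

theorem gold_apn : IsAPN gold := by
  unfold IsAPN
  decide

/-- For every `n ≥ 3` and every quadratic APN function `F` on `𝔽₂ⁿ`, the ortho-derivative
exists, is unique, and its nonlinearity is zero if and only if `n = 3`. Quadratic APN functions
exist for `n = 3`. -/
theorem result :
    (∀ n : ℕ, 3 ≤ n → ∀ F : V n → V n, IsQuadratic F → IsAPN F →
      ∃ G : V n → V n, IsOrthoDerivative F G ∧ (∀ G', IsOrthoDerivative F G' → G' = G) ∧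
        (NL G = 0 ↔ n = 3)) ∧
    ∃ F : V 3 → V 3, IsQuadratic F ∧ IsAPN F := by
  refine ⟨?_, gold, gold_quadratic, gold_apn⟩
  intro n hn F hF hA
  obtain ⟨G, hG, huniq⟩ := exists_orthoDerivative hF.1 hA
  refine ⟨G, hG, huniq, ?_⟩
  rw [NL_eq_zero_iff (by omega)]
  constructor
  · rintro ⟨b, u, c, hb, h⟩
    by_contra hne
    exact not_affine (by omega) hF.1 hA hG hb h
  · rintro rfl
    obtain ⟨b, u, hb, h⟩ := linear_three hF.1 hA hG
    exact ⟨b, u, 0, hb, fun x => by rw [h, add_zero]⟩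

end Pool.Agent.Results.MP_4cfb12_co.OnlyDimensionThree
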